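import Pool.Agent.Helper53.Comp.GoalsG

/-!
# Packet G8: nonzero coefficients give poles
-/

namespace Mono

namespace Comp

namespace G8

open Finset Polynomial

/-- Common denominators. -/
theorem sum_div_prod {F ι : Type*} [Field F] [DecidableEq ι] (T : Finset ι) (c f : ι → F)
    (hf : ∀ x ∈ T, f x ≠ 0) :
    (∑ x ∈ T, c x / f x) * ∏ x ∈ T, f x = ∑ x ∈ T, c x * ∏ y ∈ T.erase x, f y := by
  rw [Finset.sum_mul]
  refine Finset.sum_congr rfl fun x hx => ?_
  rw [← Finset.mul_prod_erase T f hx]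
  field_simp [hf x hx]

theorem lin_ne (a : ℂ) : (RatFunc.X + RatFunc.C a : RatFunc ℂ) ≠ 0 := by
  have h : (RatFunc.X + RatFunc.C a : RatFunc ℂ) = (algebraMap ℂ[X] (RatFunc ℂ)) (X + C a) := by simp
  rw [h]
  exact (map_ne_zero_iff _ (RatFunc.algebraMap_injective ℂ)).2 (X_add_C_ne_zero a)

/-- The rational function attached to partial fractions. -/
noncomputable def L : (ℝ × ℕ →₀ ℝ) →+ RatFunc ℂ :=
  Finsupp.liftAddHom (fun x => (AddMonoidHom.mulRight
    (1 / (RatFunc.X + RatFunc.C (x.1 : ℂ)) ^ (x.2 + 1))).comp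
      ((RatFunc.C : ℂ →+* RatFunc ℂ).toAddMonoidHom.comp Complex.ofRealHom.toAddMonoidHom))

theorem L_apply (c : ℝ × ℕ →₀ ℝ) : L c = ∑ x ∈ c.support,
    RatFunc.C ((c x : ℝ) : ℂ) / (RatFunc.X + RatFunc.C (x.1 : ℂ)) ^ (x.2 + 1) := by
  simp only [L, Finsupp.liftAddHom_apply, Finsupp.sum]
  refine Finset.sum_congr rfl fun x _ => ?_
  simp [div_eq_mul_inv]

theorem L_single (y : ℝ × ℕ) (b : ℝ) : L (Finsupp.single y b) =
    RatFunc.C (b : ℂ) * (1 / (RatFunc.X + RatFunc.C (y.1 : ℂ)) ^ (y.2 + 1)) := by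
  rw [L, Finsupp.liftAddHom_apply_single]
  rfl

theorem L_smul (a : ℝ) (c : ℝ × ℕ →₀ ℝ) : L (a • c) = RatFunc.C (a : ℂ) * L c := by
  induction c using Finsupp.induction_linear with
  | zero => simp
  | add f g hf hg => rw [smul_add, map_add, hf, hg, map_add, mul_add]
  | single x b =>
    rw [Finsupp.smul_single, L_single, L_single, smul_eq_mul, Complex.ofReal_mul, map_mul,
      mul_assoc]

/-- The identity of partial fractions in `RatFunc ℂ`. -/
theorem ratEq (m : Multiset ℝ) (c : ℝ × ℕ →₀ ℝ) (hm : ∀ x ∈ m, 0 < x)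
    (hc : ∀ x ∈ c.support, 0 < x.1)
    (h : ∀ z : ℝ, 0 < z → (m.map (fun x => 1 / (z + x))).prod =
      c.sum (fun x c => c / (z + x.1) ^ (x.2 + 1))) :
    (m.map (fun x : ℝ => 1 / (RatFunc.X + RatFunc.C (x : ℂ)))).prod = L c := by
  classical
  set P1 : ℂ[X] := ∏ x ∈ c.support, (X + C (x.1 : ℂ)) ^ (x.2 + 1) with hP1
  set P2 : ℂ[X] := (m.map (fun x : ℝ => X + C (x : ℂ))).prod with hP2
  set Q : ℂ[X] := ∑ x ∈ c.support, C ((c x : ℝ) : ℂ) *
    ∏ y ∈ c.support.erase x, (X + C (y.1 : ℂ)) ^ (y.2 + 1) with hQ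
  have key : P1 = Q * P2 := by
    refine Polynomial.eq_of_infinite_eval_eq _ _ ?_
    refine Set.Infinite.mono (s := (fun x : ℝ => (x : ℂ)) '' Set.Ioi 0) ?_
      ((Set.Ioi_infinite (0 : ℝ)).image Complex.ofReal_injective.injOn)
    rintro _ ⟨z, hz, rfl⟩
    have hz' : 0 < z := hz
    have e1 : (∏ x ∈ c.support, (z + x.1) ^ (x.2 + 1)) =
        (∑ x ∈ c.support, c x * ∏ y ∈ c.support.erase x, (z + y.1) ^ (y.2 + 1)) *
          (m.map (fun x => z + x)).prod := by
      have h1 := h z hz'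
      have h2 := sum_div_prod c.support (fun x => c x) (fun x => (z + x.1) ^ (x.2 + 1))
        (fun x hx => (pow_pos (add_pos hz' (hc x hx)) _).ne')
      have h3 : (m.map (fun x => 1 / (z + x))).prod * (m.map (fun x => z + x)).prod = 1 := by
        rw [← Multiset.prod_map_mul]
        refine Multiset.prod_eq_one fun y hy => ?_
        obtain ⟨x, hx, rfl⟩ := Multiset.mem_map.1 hy
        exact one_div_mul_cancel (add_pos hz' (hm x hx)).ne'
      rw [h1, Finsupp.sum] at h3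
      rw [← h2]
      calc (∏ x ∈ c.support, (z + x.1) ^ (x.2 + 1))
          = ((∑ x ∈ c.support, c x / (z + x.1) ^ (x.2 + 1)) * (m.map (fun x => z + x)).prod) *
            (∏ x ∈ c.support, (z + x.1) ^ (x.2 + 1)) := by rw [h3, one_mul]
        _ = _ := by ring
    have e2 := congrArg (fun x : ℝ => (x : ℂ)) e1
    simp only [hP1, hQ, hP2, eval_mul, eval_prod, eval_pow, eval_add, eval_X,
      eval_C, eval_finsetSum, Polynomial.eval_multiset_prod, Multiset.map_map,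
      Function.comp_def]
    have e3 : ((m.map (fun x => z + x)).prod : ℝ) = ((m.map (fun x : ℝ => (z : ℂ) + x)).prod) := by
      rw [← Complex.ofRealHom_eq_coe, map_multiset_prod, Multiset.map_map]
      simp
    push_cast at e2
    rw [e3] at e2
    exact e2
  have hP2' : (algebraMap ℂ[X] (RatFunc ℂ)) P2 ≠ 0 := by
    refine (map_ne_zero_iff _ (RatFunc.algebraMap_injective ℂ)).2 ?_
    rw [hP2]
    refine Multiset.prod_ne_zero fun h0 => ?_
    obtain ⟨x, -, hx⟩ := Multiset.mem_map.1 h0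
    exact X_add_C_ne_zero _ hx
  have hP1' : (algebraMap ℂ[X] (RatFunc ℂ)) P1 ≠ 0 := by
    refine (map_ne_zero_iff _ (RatFunc.algebraMap_injective ℂ)).2 ?_
    rw [hP1]
    exact Finset.prod_ne_zero_iff.2 fun x _ => pow_ne_zero _ (X_add_C_ne_zero _)
  have f1 : (m.map (fun x : ℝ => 1 / (RatFunc.X + RatFunc.C (x : ℂ)))).prod * (algebraMap ℂ[X] (RatFunc ℂ)) P2 = 1 := by
    rw [hP2, map_multiset_prod, Multiset.map_map, ← Multiset.prod_map_mul]
    refine Multiset.prod_eq_one fun y hy => ?_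
    obtain ⟨x, hx, rfl⟩ := Multiset.mem_map.1 hy
    simp only [Function.comp_apply, map_add, RatFunc.algebraMap_X, RatFunc.algebraMap_C]
    exact one_div_mul_cancel (lin_ne _)
  have f2 : L c * (algebraMap ℂ[X] (RatFunc ℂ)) P1 = (algebraMap ℂ[X] (RatFunc ℂ)) Q := by
    rw [L_apply, hP1, map_prod, hQ, map_sum]
    have h2 := sum_div_prod c.support (fun x => RatFunc.C ((c x : ℝ) : ℂ))
      (fun x => (RatFunc.X + RatFunc.C (x.1 : ℂ)) ^ (x.2 + 1)) (fun x hx => pow_ne_zero _ (lin_ne _))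
    simp only [map_mul, map_pow, map_add, RatFunc.algebraMap_X, RatFunc.algebraMap_C, map_prod]
    exact h2
  have f3 : (algebraMap ℂ[X] (RatFunc ℂ)) P1 = (algebraMap ℂ[X] (RatFunc ℂ)) Q * (algebraMap ℂ[X] (RatFunc ℂ)) P2 := by rw [key, map_mul]
  have f4 : (m.map (fun x : ℝ => 1 / (RatFunc.X + RatFunc.C (x : ℂ)))).prod * ((algebraMap ℂ[X] (RatFunc ℂ)) P1 * (algebraMap ℂ[X] (RatFunc ℂ)) P2) =
      L c * ((algebraMap ℂ[X] (RatFunc ℂ)) P1 * (algebraMap ℂ[X] (RatFunc ℂ)) P2) := by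
    calc _ = (m.map (fun x : ℝ => 1 / (RatFunc.X + RatFunc.C (x : ℂ)))).prod * (algebraMap ℂ[X] (RatFunc ℂ)) P2 * (algebraMap ℂ[X] (RatFunc ℂ)) P1 := by
          ring
      _ = (algebraMap ℂ[X] (RatFunc ℂ)) P1 := by rw [f1, one_mul]
      _ = (algebraMap ℂ[X] (RatFunc ℂ)) Q * (algebraMap ℂ[X] (RatFunc ℂ)) P2 := f3
      _ = L c * (algebraMap ℂ[X] (RatFunc ℂ)) P1 * (algebraMap ℂ[X] (RatFunc ℂ)) P2 := by rw [f2]
      _ = _ := by ring
  exact mul_right_cancel₀ (mul_ne_zero hP1' hP2') f4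

/-- Poles of partial fractions. -/
theorem pole (c : ℝ × ℕ →₀ ℝ) (x : ℝ × ℕ) (hx : c x ≠ 0) :
    x.2 + 1 ≤ (L c).denom.rootMultiplicity (-(x.1 : ℂ)) := by
  classical
  set r := x.1 with hr
  set T1 := c.support.filter (fun y => y.1 = r) with hT1
  set T2 := c.support.filter (fun y => ¬ y.1 = r) with hT2
  have hxT : x ∈ T1 := by simp [hT1, hx, hr]
  obtain ⟨y₀, hy₀, hmax⟩ := T1.exists_max_image (fun y => y.2) ⟨x, hxT⟩
  set p := y₀.2 with hp
  have hy0 : y₀ = (r, p) := by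
    have : y₀.1 = r := (Finset.mem_filter.1 hy₀).2
    exact Prod.ext this rfl
  set B2 : ℂ[X] := ∏ y ∈ T2, (X + C (y.1 : ℂ)) ^ (y.2 + 1) with hB2
  set A1 : ℂ[X] := ∑ y ∈ T1, C ((c y : ℝ) : ℂ) * (X + C (r : ℂ)) ^ (p - y.2) with hA1
  set A2 : ℂ[X] := ∑ y ∈ T2, C ((c y : ℝ) : ℂ) *
    ∏ y' ∈ T2.erase y, (X + C (y'.1 : ℂ)) ^ (y'.2 + 1) with hA2
  set A : ℂ[X] := A1 * B2 + A2 * (X + C (r : ℂ)) ^ (p + 1) with hA
  have g1 : (∑ y ∈ T1, RatFunc.C ((c y : ℝ) : ℂ) /
      (RatFunc.X + RatFunc.C (y.1 : ℂ)) ^ (y.2 + 1)) * ((algebraMap ℂ[X] (RatFunc ℂ)) (X + C (r : ℂ))) ^ (p + 1) = (algebraMap ℂ[X] (RatFunc ℂ)) A1 := by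
    rw [hA1, map_sum, Finset.sum_mul]
    refine Finset.sum_congr rfl fun y hy => ?_
    have hy1 : y.1 = r := (Finset.mem_filter.1 hy).2
    have hy2 : y.2 ≤ p := hmax y hy
    have e : p + 1 = (y.2 + 1) + (p - y.2) := by omega
    rw [hy1]
    simp only [map_mul, map_pow, map_add, RatFunc.algebraMap_X, RatFunc.algebraMap_C]
    have := pow_ne_zero (y.2 + 1) (lin_ne (r : ℂ))
    rw [div_mul_eq_mul_div, div_eq_iff this, mul_assoc, ← pow_add, e]
    congr 2
    omega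
  have g2 : (∑ y ∈ T2, RatFunc.C ((c y : ℝ) : ℂ) /
      (RatFunc.X + RatFunc.C (y.1 : ℂ)) ^ (y.2 + 1)) * (algebraMap ℂ[X] (RatFunc ℂ)) B2 = (algebraMap ℂ[X] (RatFunc ℂ)) A2 := by
    have h2 := sum_div_prod T2 (fun x => RatFunc.C ((c x : ℝ) : ℂ))
      (fun x => (RatFunc.X + RatFunc.C (x.1 : ℂ)) ^ (x.2 + 1)) (fun x hx => pow_ne_zero _ (lin_ne _))
    rw [hB2, hA2]
    simp only [map_mul, map_pow, map_add, RatFunc.algebraMap_X, RatFunc.algebraMap_C, map_prod,
      map_sum]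
    exact h2
  have g3 : L c * ((algebraMap ℂ[X] (RatFunc ℂ)) ((X + C (r : ℂ)) ^ (p + 1) * B2)) = (algebraMap ℂ[X] (RatFunc ℂ)) A := by
    rw [L_apply, ← Finset.sum_filter_add_sum_filter_not c.support (fun y => y.1 = r), add_mul,
      hA, map_add, map_mul, map_mul, map_mul, map_pow, ← g1, ← g2]
    ring
  have hcop : A.eval (-(r : ℂ)) ≠ 0 := by
    have hB : B2.eval (-(r : ℂ)) ≠ 0 := by
      rw [hB2, eval_prod]
      refine Finset.prod_ne_zero_iff.2 fun y hy => ?_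
      have hy1 : ¬ y.1 = r := (Finset.mem_filter.1 hy).2
      rw [eval_pow]
      refine pow_ne_zero _ ?_
      rw [eval_add, eval_X, eval_C]
      intro h0
      apply hy1
      have : (y.1 : ℂ) = r := by linear_combination h0
      exact_mod_cast this
    have hAA : A1.eval (-(r : ℂ)) = ((c y₀ : ℝ) : ℂ) := by
      rw [hA1, eval_finsetSum, Finset.sum_eq_single y₀]
      · simp [hp]
      · intro y hy hne
        have hy1 : y.1 = r := (Finset.mem_filter.1 hy).2
        have hy2 : y.2 ≤ p := hmax y hy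
        have hy3 : y.2 ≠ p := by
          intro h
          apply hne
          rw [hy0]
          exact Prod.ext hy1 h
        have : p - y.2 ≠ 0 := by omega
        simp [this]
      · intro h
        exact absurd hy₀ h
    rw [hA, eval_add, eval_mul, eval_mul, eval_pow, eval_add, eval_X, eval_C, hAA]
    have hc0 : ((c y₀ : ℝ) : ℂ) ≠ 0 := by
      have : c y₀ ≠ 0 := Finsupp.mem_support_iff.1 (Finset.mem_filter.1 hy₀).1
      exact_mod_cast this
    rw [neg_add_cancel, zero_pow (Nat.succ_ne_zero p), mul_zero, add_zero]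
    exact mul_ne_zero hc0 hB
  have hden : (L c).denom ≠ 0 := (L c).denom_ne_zero
  have g4 : (L c).num * ((X + C (r : ℂ)) ^ (p + 1) * B2) = A * (L c).denom := by
    apply RatFunc.algebraMap_injective ℂ
    have hd' : (algebraMap ℂ[X] (RatFunc ℂ)) (L c).denom ≠ 0 := (map_ne_zero_iff _ (RatFunc.algebraMap_injective ℂ)).2 hden
    have hn : (algebraMap ℂ[X] (RatFunc ℂ)) (L c).num = L c * (algebraMap ℂ[X] (RatFunc ℂ)) (L c).denom := by
      have := RatFunc.num_div_denom (L c)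
      rw [← div_eq_iff hd']
      exact this
    calc (algebraMap ℂ[X] (RatFunc ℂ)) ((L c).num * ((X + C (r : ℂ)) ^ (p + 1) * B2))
        = (algebraMap ℂ[X] (RatFunc ℂ)) (L c).num * (algebraMap ℂ[X] (RatFunc ℂ)) ((X + C (r : ℂ)) ^ (p + 1) * B2) := map_mul _ _ _
      _ = (L c * (algebraMap ℂ[X] (RatFunc ℂ)) ((X + C (r : ℂ)) ^ (p + 1) * B2)) * (algebraMap ℂ[X] (RatFunc ℂ)) (L c).denom := by rw [hn]; ring
      _ = (algebraMap ℂ[X] (RatFunc ℂ)) (A * (L c).denom) := by rw [g3, map_mul]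
  have g5 : (X + C (r : ℂ)) ^ (p + 1) ∣ A * (L c).denom := by
    rw [← g4]
    exact ⟨(L c).num * B2, by ring⟩
  have hco : IsCoprime ((X + C (r : ℂ)) ^ (p + 1)) A := by
    have e : (X + C (r : ℂ)) = X - C (-(r : ℂ)) := by simp
    rw [e]
    refine IsCoprime.pow_left ?_
    exact (Polynomial.prime_X_sub_C _).irreducible.coprime_iff_not_dvd.2
      (fun h => hcop (Polynomial.dvd_iff_isRoot.1 h))
  have g6 : (X + C (r : ℂ)) ^ (p + 1) ∣ (L c).denom := hco.dvd_of_dvd_mul_left g5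
  have g7 : p + 1 ≤ (L c).denom.rootMultiplicity (-(r : ℂ)) := by
    rw [Polynomial.le_rootMultiplicity_iff hden]
    simpa using g6
  exact le_trans (Nat.succ_le_succ (hmax x hxT)) g7

/-- One stratum. -/
theorem stratum (red : Multiset ℝ → (ℝ × ℕ →₀ ℝ)) (hred : IsRed red) (t : Stratum)
    (ht : t.2 ≠ [] ∧ ∀ q ∈ t.2, 0 < q.1 ∧ 0 < q.2) :
    RatFunc.C (t.1 : ℂ) *
      (t.2.map (fun q => 1 / (RatFunc.C (q.1 : ℂ) * RatFunc.X + RatFunc.C (q.2 : ℂ)))).prod =
    L (((t.1 : ℝ) * (t.2.map (fun q => (q.1 : ℝ)⁻¹)).prod) •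
      red ((t.2.map (fun q => (q.2 : ℝ) / (q.1 : ℝ)) : List ℝ) : Multiset ℝ)) := by
  set m : Multiset ℝ := ((t.2.map (fun q => (q.2 : ℝ) / (q.1 : ℝ)) : List ℝ) : Multiset ℝ) with hm
  have hm0 : m ≠ 0 := by
    rw [hm]
    intro h
    apply ht.1
    simpa using h
  have hpos : PosM m := by
    intro x hx
    rw [hm, Multiset.mem_coe, List.mem_map] at hx
    obtain ⟨q, hq, rfl⟩ := hx
    obtain ⟨h1, h2⟩ := ht.2 q hq
    have h1' : (0 : ℝ) < q.1 := by exact_mod_cast h1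
    have h2' : (0 : ℝ) < q.2 := by exact_mod_cast h2
    positivity
  obtain ⟨h1, h2, -⟩ := hred m hm0 hpos
  rw [L_smul, ← ratEq m (red m) hpos (fun x hx => hpos _ (h1 x hx)) h2]
  have e1 : (m.map (fun x : ℝ => 1 / (RatFunc.X + RatFunc.C (x : ℂ)))).prod =
      (t.2.map (fun q => 1 / (RatFunc.X + RatFunc.C (((q.2 : ℝ) / (q.1 : ℝ) : ℝ) : ℂ)))).prod := by
    rw [hm, Multiset.map_coe, Multiset.prod_coe, List.map_map]
    rfl
  have e2 : RatFunc.C ((((t.1 : ℝ) * (t.2.map (fun q => (q.1 : ℝ)⁻¹)).prod : ℝ)) : ℂ) =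
      RatFunc.C (t.1 : ℂ) * (t.2.map (fun q => RatFunc.C (((q.1 : ℝ)⁻¹ : ℝ) : ℂ))).prod := by
    have : ((((t.2.map (fun q => (q.1 : ℝ)⁻¹)).prod : ℝ)) : ℂ) =
        (t.2.map (fun q => (((q.1 : ℝ)⁻¹ : ℝ) : ℂ))).prod := by
      rw [← Complex.ofRealHom_eq_coe, map_list_prod, List.map_map]
      rfl
    rw [Complex.ofReal_mul, map_mul, this, map_list_prod, List.map_map]
    simp [Function.comp_def]
  rw [e1, e2, mul_assoc, ← List.prod_map_mul]
  congr 2
  refine List.map_congr_left fun q hq => ?_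
  obtain ⟨h1, h2⟩ := ht.2 q hq
  have hq1 : ((q.1 : ℕ) : ℂ) ≠ 0 := by
    exact_mod_cast h1.ne'
  have hC : RatFunc.C ((q.1 : ℕ) : ℂ) ≠ (0 : RatFunc ℂ) := by
    simpa using hq1
  have e3 : RatFunc.C (q.1 : ℂ) * RatFunc.X + RatFunc.C (q.2 : ℂ) =
      RatFunc.C (q.1 : ℂ) * (RatFunc.X + RatFunc.C (((q.2 : ℝ) / (q.1 : ℝ) : ℝ) : ℂ)) := by
    rw [mul_add, ← map_mul]
    congr 2
    push_cast
    field_simp
  rw [e3, one_div, mul_inv, one_div]
  congr 1
  rw [← map_inv₀]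
  push_cast
  rfl

end G8

open G8 in
/-- G8: nonzero coefficients give poles. -/
theorem coefPole : CoefPole := by
  classical
  intro red hred g hg e x hx
  have hZ : Ze g e = L (coefG red g e) := by
    unfold Ze coefG
    rw [map_list_sum, List.map_map]
    congr 1
    refine List.map_congr_left fun t ht => ?_
    simp only [Function.comp_apply]
    split_ifs with h
    · exact stratum red hred t (hg t ht)
    · simp
  have hpole := pole (coefG red g e) x hx
  rw [← hZ] at hpole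
  refine ⟨?_, ?_, fun h0 => ?_⟩
  · by_contra hneg
    apply hx
    unfold coefG
    have happ : ∀ l : List (ℝ × ℕ →₀ ℝ), l.sum x = (l.map (fun f => f x)).sum := by
      intro l
      induction l with
      | nil => simp
      | cons a l ih => simp [ih]
    rw [happ, List.map_map]
    refine List.sum_eq_zero fun y hy => ?_
    obtain ⟨t, ht, rfl⟩ := List.mem_map.1 hy
    simp only [Function.comp_apply]
    split_ifs with h
    · rw [Finsupp.smul_apply]
      have ht' := hg t ht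
      set m : Multiset ℝ := ((t.2.map (fun q => (q.2 : ℝ) / (q.1 : ℝ)) : List ℝ) : Multiset ℝ)
        with hm
      have hm0 : m ≠ 0 := by
        rw [hm]
        intro h
        apply ht'.1
        simpa using h
      have hpos : PosM m := by
        intro x hx
        rw [hm, Multiset.mem_coe, List.mem_map] at hx
        obtain ⟨q, hq, rfl⟩ := hx
        obtain ⟨h1, h2⟩ := ht'.2 q hq
        have h1' : (0 : ℝ) < q.1 := by exact_mod_cast h1
        have h2' : (0 : ℝ) < q.2 := by exact_mod_cast h2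
        positivity
      obtain ⟨h1, -, -⟩ := hred m hm0 hpos
      have : red m x = 0 := by
        by_contra hne
        exact hneg (hpos _ (h1 x (Finsupp.mem_support_iff.2 hne)))
      simp [this]
    · simp
  · have h1 : 0 < (Ze g e).denom.rootMultiplicity (-(x.1 : ℂ)) := by omega
    exact (Polynomial.rootMultiplicity_pos (Ze g e).denom_ne_zero).1 h1
  · omega

end Comp

end Mono
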